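import Pool.Agent.BEN.StmtsB
import Pool.Agent.Helper70_BE01.Fnl

/-!
# Squad BEN (MP_be01ff_an): module FNE, from `Slu` to the solution on the domain
-/

namespace Pool.Agent.BEN.H86

open Pool.Agent.BE01 Pool.Agent.BEF Pool.Agent.BEH Pool.Agent.BEN Pool.Agent.Helper70BE01Fnl
open Set Filter Topology MeasureTheory
open scoped InnerProductSpace ENNReal

noncomputable section

theorem fne : FneStmt := by
  intro d Ω X iX1 iX2 W Z p a hDom hp ha hX hW hS
  have hmul := hX.mul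
  have hone := hX.one
  have hpow : ∀ (x : X) (n : ℕ), W.e (x ^ n) =ᵐ[mu Ω] fun z => (W.e x z) ^ n := by
    intro x n
    induction n with
    | zero =>
      rw [pow_zero]
      filter_upwards [hone] with z hz
      rw [hz, pow_zero]
    | succ n ih =>
      rw [pow_succ]
      filter_upwards [ih, hmul (x ^ n) x] with z h1 h2
      rw [h2, h1, pow_succ]
  obtain ⟨t0, c, C, u, x, k, w, h, ht0, hc, hwc, hhc, H⟩ := hS
  have hs : ∀ t : ℝ, 0 ≤ t → t0 < t + (t0 + 1) := fun t ht => by linarith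
  refine ⟨fun t => u (t + (t0 + 1)), fun t => W.e (x (t + (t0 + 1))), fun t => w (t + (t0 + 1)),
    fun t => Z (h (t + (t0 + 1))), ?_, ?_⟩
  · refine ⟨?_, ?_, ?_, ?_, ?_, ?_, ?_, ?_⟩
    · intro t ht
      obtain ⟨-, -, -, hu, -, -, -⟩ := H _ (hs t ht)
      show (u (t + (t0 + 1)), Z (h (t + (t0 + 1)))) ∈ H10 Ω
      rw [hu]
      exact hW.dom _
    · intro t ht
      obtain ⟨-, -, hx, -, -, -, -⟩ := H _ (hs t ht)
      refine ⟨Z (k (t + (t0 + 1))), ?_⟩
      show (W.e (x (t + (t0 + 1))), Z (k (t + (t0 + 1)))) ∈ H10 Ω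
      rw [hx]
      exact hW.dom _
    · intro t ht
      obtain ⟨hu, -, -, -, -, -, -⟩ := H _ (hs t ht)
      exact hu.comp_add_const t (t0 + 1)
    · intro t ht
      obtain ⟨-, hv, -, -, -, -, -⟩ := H _ (hs t ht)
      exact hv.comp_add_const t (t0 + 1)
    · refine Z.continuous.comp_continuousOn (hhc.comp (by fun_prop) ?_)
      intro t ht
      exact hs t ht
    · refine hwc.comp (by fun_prop) ?_
      intro t ht
      exact hs t ht
    · intro t ht
      refine ⟨‖x (t + (t0 + 1))‖, ?_⟩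
      exact hX.le _
    · intro t ht ψ hψ
      obtain ⟨-, -, -, -, heq, -, -⟩ := H _ (hs t ht)
      set s := t + (t0 + 1) with hsdef
      have h1 : ∀ᵐ z ∂(mu Ω), a * |W.e (x s) z| ^ ((2 * p : ℕ) : ℝ) * W.e (x s) z * ψ z =
          a * (W.e (x s ^ (2 * p + 1)) z * ψ z) := by
        filter_upwards [hpow (x s) (2 * p + 1)] with z hz
        rw [hz, Real.rpow_natCast, pow_mul, sq_abs, ← pow_mul]
        ring
      have h2 : ∀ᵐ z ∂(mu Ω), w s z * ψ z + h s z * ψ z + a * (W.e (x s ^ (2 * p + 1)) z * ψ z) =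
          0 := by
        have h3 : (w s + h s + a • W.e (x s ^ (2 * p + 1)) : Lp ℝ 2 (mu Ω)) =ᵐ[mu Ω] 0 := by
          rw [heq]
          exact Lp.coeFn_zero _ _ _
        filter_upwards [h3, Lp.coeFn_add (w s + h s) (a • W.e (x s ^ (2 * p + 1))),
          Lp.coeFn_add (w s) (h s), Lp.coeFn_smul a (W.e (x s ^ (2 * p + 1)))] with z h4 h5 h6 h7
        rw [h5] at h4
        simp only [Pi.add_apply, Pi.zero_apply] at h4
        rw [h6, h7] at h4
        simp only [Pi.add_apply, Pi.smul_apply, smul_eq_mul] at h4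
        have h8 := congrArg (fun r => r * ψ z) h4
        simp only [zero_mul] at h8
        linarith
      have i1 := int_mul (w s) hψ
      have i2 := int_mul (h s) hψ
      have i3 := int_inner (Z (h s)) hψ
      have i4 := (int_mul (W.e (x s ^ (2 * p + 1))) hψ).const_mul a
      have e1 : ∫ z, w s z * ψ z + ⟪Z (h s) z, gradient ψ z⟫_ℝ +
          a * |W.e (x s) z| ^ ((2 * p : ℕ) : ℝ) * W.e (x s) z * ψ z ∂(mu Ω) =
          ∫ z, (w s z * ψ z + ⟪Z (h s) z, gradient ψ z⟫_ℝ) +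
            a * (W.e (x s ^ (2 * p + 1)) z * ψ z) ∂(mu Ω) := by
        refine integral_congr_ae ?_
        filter_upwards [h1] with z hz
        rw [hz]
      have e2 : ∫ z, (w s z * ψ z + h s z * ψ z) + a * (W.e (x s ^ (2 * p + 1)) z * ψ z) ∂(mu Ω) =
          0 := by
        rw [integral_congr_ae (g := fun _ => (0 : ℝ)) h2]
        simp
      rw [int3 i1 i2 i4] at e2
      show ∫ z, w s z * ψ z + ⟪Z (h s) z, gradient ψ z⟫_ℝ +
          a * |W.e (x s) z| ^ ((2 * p : ℕ) : ℝ) * W.e (x s) z * ψ z ∂(mu Ω) = 0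
      rw [e1, int3 i1 i3 i4, hW.weak (h s) ψ hψ]
      exact e2
  · have hexp : (-(2 / ((2 * p : ℕ) : ℝ))) = -(1 / (p : ℝ)) := by
      have : (p : ℝ) ≠ 0 := by positivity
      push_cast
      field_simp
    have hC : 0 < C := by
      obtain ⟨-, -, -, -, -, h1, h2⟩ := H (t0 + 1) (by linarith)
      have h3 : 0 < (t0 + 1) ^ (-(1 / (p : ℝ))) := Real.rpow_pos_of_pos (by linarith) _
      have h4 : c * (t0 + 1) ^ (-(1 / (p : ℝ))) ≤ C * (t0 + 1) ^ (-(1 / (p : ℝ))) := h1.trans h2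
      have h5 := le_of_mul_le_mul_right h4 h3
      linarith
    refine ⟨c * (t0 + 1) ^ (-(1 / (p : ℝ))), C, mul_pos hc (Real.rpow_pos_of_pos (by linarith) _),
      fun t ht => ?_⟩
    obtain ⟨-, -, -, -, -, h1, h2⟩ := H _ (hs t ht)
    rw [hexp, energy_eq]
    show _ ≤ ‖W.e (x (t + (t0 + 1)))‖ ^ 2 + ‖Z (h (t + (t0 + 1)))‖ ^ 2 ∧
      ‖W.e (x (t + (t0 + 1)))‖ ^ 2 + ‖Z (h (t + (t0 + 1)))‖ ^ 2 ≤ _
    rw [hW.nrm]
    have hneg : -(1 / (p : ℝ)) ≤ 0 := by
      have : 0 ≤ 1 / (p : ℝ) := by positivity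
      linarith
    constructor
    · refine le_trans ?_ h1
      rw [mul_assoc, ← Real.mul_rpow (by linarith) (by linarith)]
      refine mul_le_mul_of_nonneg_left ?_ hc.le
      refine Real.rpow_le_rpow_of_nonpos (by linarith) ?_ hneg
      nlinarith
    · refine h2.trans ?_
      refine mul_le_mul_of_nonneg_left ?_ hC.le
      exact Real.rpow_le_rpow_of_nonpos (by linarith) (by linarith) hneg

end

end Pool.Agent.BEN.H86
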